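import Pool.Agent.helper74.TG.Defs

/-!
# GNU project, analytic part: wt:6 (the circle method)
-/

namespace Pool.Agent.helper74.TG

open Finset

namespace h61

theorem ee_add (x y : ℝ) : ee (x + y) = ee x * ee y := by
  simp only [ee]
  rw [← Complex.exp_add]
  congr 1
  push_cast
  ring

theorem ee_zero : ee 0 = 1 := by simp [ee]

theorem ee_int (m : ℤ) : ee m = 1 := by
  simp only [ee]
  rw [Complex.exp_eq_one_iff]
  exact ⟨m, by push_cast; ring⟩

theorem ee_nat (m : ℕ) : ee m = 1 := by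
  have := ee_int m
  simpa using this

theorem ee_nat_mul (n : ℕ) (x : ℝ) : ee (n * x) = ee x ^ n := by
  simp only [ee]
  rw [← Complex.exp_nat_mul]
  congr 1
  push_cast
  ring

theorem ee_norm (x : ℝ) : ‖ee x‖ = 1 := by
  simp only [ee]
  have : (2 * Real.pi * x * Complex.I : ℂ) = ((2 * Real.pi * x : ℝ) : ℂ) * Complex.I := by
    push_cast; ring
  rw [this, Complex.norm_exp_ofReal_mul_I]

theorem ee_neg (x : ℝ) : ee (-x) = (starRingEnd ℂ) (ee x) := by
  simp only [ee]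
  rw [← Complex.exp_conj]
  congr 1
  have h1 : (2 * Real.pi * x * Complex.I : ℂ) = ((2 * Real.pi * x : ℝ) : ℂ) * Complex.I := by
    push_cast; ring
  rw [h1, map_mul, Complex.conj_ofReal, Complex.conj_I]
  push_cast
  ring

theorem ee_eq_one {x : ℝ} (h : ee x = 1) : ∃ m : ℤ, x = m := by
  simp only [ee] at h
  rw [Complex.exp_eq_one_iff] at h
  obtain ⟨m, hm⟩ := h
  refine ⟨m, ?_⟩
  have h2 : (2 * Real.pi * Complex.I : ℂ) ≠ 0 := Complex.two_pi_I_ne_zero
  have h3 : (2 * Real.pi * Complex.I : ℂ) * (x : ℂ) = (2 * Real.pi * Complex.I : ℂ) * (m : ℂ) := by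
    linear_combination hm
  exact_mod_cast mul_left_cancel₀ h2 h3

/-- orthogonality -/
theorem orth (P : ℕ) (m : ℤ) (hm : |m| < P) :
    ∑ k ∈ range P, ee (k * ((m : ℝ) / P)) = if m = 0 then (P : ℂ) else 0 := by
  have hP : 0 < P := by
    have := abs_nonneg m
    omega
  have hPr : (P : ℝ) ≠ 0 := by positivity
  split_ifs with h
  · subst h
    simp [ee_zero]
  · simp only [ee_nat_mul]
    have h1 : ee ((m : ℝ) / P) ≠ 1 := by
      intro h1
      obtain ⟨j, hj⟩ := ee_eq_one h1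
      rw [div_eq_iff hPr] at hj
      have hj' : m = j * P := by exact_mod_cast hj
      have hj0 : j ≠ 0 := by
        rintro rfl
        exact h (by simpa using hj')
      have : (P : ℤ) ≤ |m| := by
        rw [hj', abs_mul]
        have : 1 ≤ |j| := Int.one_le_abs hj0
        rw [Nat.abs_cast]
        nlinarith [this, (Int.natCast_pos.2 hP)]
      omega
    have h2 := geom_sum_eq h1 P
    rw [h2]
    have h3 : ee ((m : ℝ) / P) ^ P = 1 := by
      rw [← ee_nat_mul, mul_div_cancel₀ _ hPr, ee_int]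
    rw [h3, sub_self, zero_div]

/-- discrete Parseval -/
theorem parseval (P : ℕ) (K : Finset ℕ) (hK : ∀ x ∈ K, x < P) (c : ℕ → ℂ) :
    ∑ k ∈ range P, ‖∑ z ∈ K, c z * ee (z * ((k : ℝ) / P))‖ ^ 2 = P * ∑ z ∈ K, ‖c z‖ ^ 2 := by
  have key : (∑ k ∈ range P, ((‖∑ z ∈ K, c z * ee (z * ((k : ℝ) / P))‖ ^ 2 : ℝ) : ℂ)) =
      ((P * ∑ z ∈ K, ‖c z‖ ^ 2 : ℝ) : ℂ) := by
    have h1 : ∀ k ∈ range P, ((‖∑ z ∈ K, c z * ee (z * ((k : ℝ) / P))‖ ^ 2 : ℝ) : ℂ) =
        ∑ z ∈ K, ∑ y ∈ K, c z * (starRingEnd ℂ) (c y) *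
          ee (k * ((((z : ℤ) - (y : ℤ) : ℤ) : ℝ) / P)) := by
      intro k _
      rw [Complex.ofReal_pow, ← Complex.mul_conj', map_sum, Finset.sum_mul_sum]
      refine Finset.sum_congr rfl fun z _ => Finset.sum_congr rfl fun y _ => ?_
      rw [map_mul, ← ee_neg]
      have : ee (k * ((((z : ℤ) - (y : ℤ) : ℤ) : ℝ) / P)) =
          ee (z * ((k : ℝ) / P)) * ee (-(y * ((k : ℝ) / P))) := by
        rw [← ee_add]
        congr 1
        push_cast
        ring
      rw [this]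
      ring
    rw [Finset.sum_congr rfl h1, Finset.sum_comm]
    have h2 : ∀ z ∈ K, (∑ k ∈ range P, ∑ y ∈ K, c z * (starRingEnd ℂ) (c y) *
        ee (k * ((((z : ℤ) - (y : ℤ) : ℤ) : ℝ) / P))) = (P : ℂ) * ((‖c z‖ ^ 2 : ℝ) : ℂ) := by
      intro z hz
      rw [Finset.sum_comm]
      have h3 : ∀ y ∈ K, (∑ k ∈ range P, c z * (starRingEnd ℂ) (c y) *
          ee (k * ((((z : ℤ) - (y : ℤ) : ℤ) : ℝ) / P))) =
          if y = z then (P : ℂ) * ((‖c z‖ ^ 2 : ℝ) : ℂ) else 0 := by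
        intro y hy
        rw [← Finset.mul_sum, orth P _ (by
          have h4 := hK z hz
          have h5 := hK y hy
          rw [abs_lt]
          constructor <;> omega)]
        by_cases hyz : y = z
        · subst hyz
          rw [if_pos rfl, if_pos (by ring), Complex.mul_conj']
          push_cast
          ring
        · rw [if_neg hyz, if_neg (by
            intro h6
            exact hyz (by omega)), mul_zero]
      rw [Finset.sum_congr rfl h3, Finset.sum_ite_eq' K z, if_pos hz]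
    rw [Finset.sum_congr rfl h2, ← Finset.mul_sum]
    push_cast
    rfl
  exact_mod_cast key

theorem triple (a b c : ℕ → ℂ) (I J K : Finset ℕ) (n : ℕ) (R S : ℝ) (hR0 : 0 ≤ R)
    (hA : ∀ α : ℝ, ‖∑ x ∈ I, a x * ee (x * α)‖ ≤ R)
    (hB : ∑ x ∈ J, ‖b x‖ ^ 2 ≤ S) (hC : ∑ x ∈ K, ‖c x‖ ^ 2 ≤ S) :
    ‖∑ x ∈ I, ∑ y ∈ J, ∑ z ∈ K, if x + y + z = n then a x * b y * c z else 0‖ ≤ R * S := by
  set P : ℕ := I.sup id + J.sup id + K.sup id + n + 1 with hPdef
  have hI : ∀ x ∈ I, x ≤ I.sup id := fun x hx => Finset.le_sup (f := id) hx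
  have hJ : ∀ x ∈ J, x ≤ J.sup id := fun x hx => Finset.le_sup (f := id) hx
  have hK : ∀ x ∈ K, x ≤ K.sup id := fun x hx => Finset.le_sup (f := id) hx
  have hP : (0 : ℝ) < P := by
    have : 0 < P := by omega
    exact_mod_cast this
  set A : ℕ → ℂ := fun k => ∑ x ∈ I, a x * ee (x * ((k : ℝ) / P)) with hAd
  set B : ℕ → ℂ := fun k => ∑ x ∈ J, b x * ee (x * ((k : ℝ) / P)) with hBd
  set C : ℕ → ℂ := fun k => ∑ x ∈ K, c x * ee (x * ((k : ℝ) / P)) with hCd
  have hS : 0 ≤ S := le_trans (Finset.sum_nonneg fun x _ => by positivity) hB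
  have key : (P : ℂ) * (∑ x ∈ I, ∑ y ∈ J, ∑ z ∈ K,
      if x + y + z = n then a x * b y * c z else 0) =
      ∑ k ∈ range P, A k * B k * C k * ee (-(n * ((k : ℝ) / P))) := by
    have h1 : ∀ k ∈ range P, A k * B k * C k * ee (-(n * ((k : ℝ) / P))) =
        ∑ x ∈ I, ∑ y ∈ J, ∑ z ∈ K, a x * b y * c z *
          ee (k * ((((x : ℤ) + y + z - n : ℤ) : ℝ) / P)) := by
      intro k _
      rw [hAd, hBd, hCd]
      simp only
      rw [Finset.sum_mul_sum, Finset.sum_mul, Finset.sum_mul]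
      refine Finset.sum_congr rfl fun x _ => ?_
      rw [Finset.sum_mul, Finset.sum_mul]
      refine Finset.sum_congr rfl fun y _ => ?_
      rw [Finset.mul_sum, Finset.sum_mul]
      refine Finset.sum_congr rfl fun z _ => ?_
      have : ee (k * ((((x : ℤ) + y + z - n : ℤ) : ℝ) / P)) =
          ee (x * ((k : ℝ) / P)) * ee (y * ((k : ℝ) / P)) * ee (z * ((k : ℝ) / P)) *
            ee (-(n * ((k : ℝ) / P))) := by
        rw [← ee_add, ← ee_add, ← ee_add]
        congr 1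
        push_cast
        ring
      rw [this]
      ring
    rw [Finset.sum_congr rfl h1, Finset.mul_sum, Finset.sum_comm]
    refine Finset.sum_congr rfl fun x hx => ?_
    rw [Finset.mul_sum, Finset.sum_comm]
    refine Finset.sum_congr rfl fun y hy => ?_
    rw [Finset.mul_sum, Finset.sum_comm]
    refine Finset.sum_congr rfl fun z hz => ?_
    rw [← Finset.mul_sum, orth P _ (by
      have h2 := hI x hx
      have h3 := hJ y hy
      have h4 := hK z hz
      rw [abs_lt]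
      constructor <;> omega)]
    by_cases h : x + y + z = n
    · rw [if_pos h, if_pos (by omega)]
      ring
    · rw [if_neg h, if_neg (by omega), mul_zero, mul_zero]
  have h2 : ‖∑ k ∈ range P, A k * B k * C k * ee (-(n * ((k : ℝ) / P)))‖ ≤
      R * ∑ k ∈ range P, ‖B k‖ * ‖C k‖ := by
    refine le_trans (norm_sum_le _ _) ?_
    rw [Finset.mul_sum]
    refine Finset.sum_le_sum fun k _ => ?_
    rw [norm_mul, norm_mul, norm_mul, ee_norm, mul_one, mul_assoc]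
    exact mul_le_mul_of_nonneg_right (hA _) (by positivity)
  have h3 : (∑ k ∈ range P, ‖B k‖ * ‖C k‖) ≤ P * S := by
    have e1 : ∑ k ∈ range P, ‖B k‖ ^ 2 ≤ P * S := by
      rw [hBd]
      simp only
      rw [parseval P J (fun x hx => by have := hJ x hx; omega) b]
      exact mul_le_mul_of_nonneg_left hB hP.le
    have e2 : ∑ k ∈ range P, ‖C k‖ ^ 2 ≤ P * S := by
      rw [hCd]
      simp only
      rw [parseval P K (fun x hx => by have := hK x hx; omega) c]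
      exact mul_le_mul_of_nonneg_left hC hP.le
    have e3 : ∀ k ∈ range P, ‖B k‖ * ‖C k‖ ≤ ‖B k‖ ^ 2 / 2 + ‖C k‖ ^ 2 / 2 := by
      intro k _
      nlinarith [sq_nonneg (‖B k‖ - ‖C k‖)]
    refine le_trans (Finset.sum_le_sum e3) ?_
    rw [Finset.sum_add_distrib, ← Finset.sum_div, ← Finset.sum_div]
    linarith
  have h4 : (P : ℝ) * ‖∑ x ∈ I, ∑ y ∈ J, ∑ z ∈ K,
      if x + y + z = n then a x * b y * c z else 0‖ ≤ P * (R * S) := by
    have h5 : (P : ℝ) * ‖∑ x ∈ I, ∑ y ∈ J, ∑ z ∈ K,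
        if x + y + z = n then a x * b y * c z else 0‖ =
        ‖∑ k ∈ range P, A k * B k * C k * ee (-(n * ((k : ℝ) / P)))‖ := by
      rw [← key, norm_mul, Complex.norm_natCast]
    rw [h5]
    refine le_trans h2 ?_
    calc R * ∑ k ∈ range P, ‖B k‖ * ‖C k‖ ≤ R * (P * S) := mul_le_mul_of_nonneg_left h3 hR0
      _ = P * (R * S) := by ring
  exact le_of_mul_le_mul_left h4 hP

/-- sums over triples as iterated sums -/
theorem sum_pi (I : Fin 3 → Finset ℕ) (n : ℕ) (F : (Fin 3 → ℕ) → ℂ) :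
    ∑ x ∈ (Fintype.piFinset I) with ∑ i, x i = n, F x =
      ∑ x ∈ I 0, ∑ y ∈ I 1, ∑ z ∈ I 2, if x + y + z = n then F ![x, y, z] else 0 := by
  rw [Finset.sum_filter]
  have h1 : ∑ x ∈ I 0, ∑ y ∈ I 1, ∑ z ∈ I 2, (if x + y + z = n then F ![x, y, z] else 0) =
      ∑ p ∈ I 0 ×ˢ (I 1 ×ˢ I 2),
        if p.1 + p.2.1 + p.2.2 = n then F ![p.1, p.2.1, p.2.2] else 0 := by
    rw [Finset.sum_product]
    refine Finset.sum_congr rfl fun x _ => ?_
    rw [Finset.sum_product]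
  rw [h1]
  refine Finset.sum_bij' (fun x _ => (x 0, x 1, x 2)) (fun p _ => ![p.1, p.2.1, p.2.2]) ?_ ?_ ?_ ?_
    ?_
  · intro x hx
    rw [Fintype.mem_piFinset] at hx
    simp only [Finset.mem_product]
    exact ⟨hx 0, hx 1, hx 2⟩
  · rintro ⟨x, y, z⟩ hp
    simp only [Finset.mem_product] at hp
    rw [Fintype.mem_piFinset]
    intro i
    fin_cases i
    · exact hp.1
    · exact hp.2.1
    · exact hp.2.2
  · intro x _
    funext i
    fin_cases i <;> rfl
  · rintro ⟨x, y, z⟩ _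
    rfl
  · intro x _
    have : ![x 0, x 1, x 2] = x := by
      funext i
      fin_cases i <;> rfl
    simp only [Fin.sum_univ_three, this]

end h61

/-- wt:6: the circle method. -/
theorem circle (f g : Fin 3 → ℕ → ℂ) (lo hi : Fin 3 → ℕ) (n : ℕ) (R S : ℝ)
    (hf : ∀ i, ∑ x ∈ Ioc (lo i) (hi i), ‖f i x‖ ^ 2 ≤ S)
    (hg : ∀ i, ∑ x ∈ Ioc (lo i) (hi i), ‖g i x‖ ^ 2 ≤ S)
    (hR : ∀ i, ∀ α : ℝ, ‖∑ x ∈ Ioc (lo i) (hi i), (f i x - g i x) * ee (x * α)‖ ≤ R) :
    ‖∑ x ∈ (Fintype.piFinset fun i : Fin 3 => Ioc (lo i) (hi i)) with ∑ i, x i = n,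
      (∏ i, f i (x i) - ∏ i, g i (x i))‖ ≤ 3 * R * S := by
  have hR0 : 0 ≤ R := le_trans (norm_nonneg _) (hR 0 0)
  rw [h61.sum_pi]
  have e1 := h61.triple (fun x => f 0 x - g 0 x) (f 1) (f 2) (Ioc (lo 0) (hi 0))
    (Ioc (lo 1) (hi 1)) (Ioc (lo 2) (hi 2)) n R S hR0 (hR 0) (hf 1) (hf 2)
  have e2 := h61.triple (fun x => f 1 x - g 1 x) (g 0) (f 2) (Ioc (lo 1) (hi 1))
    (Ioc (lo 0) (hi 0)) (Ioc (lo 2) (hi 2)) n R S hR0 (hR 1) (hg 0) (hf 2)
  have e3 := h61.triple (fun x => f 2 x - g 2 x) (g 0) (g 1) (Ioc (lo 2) (hi 2))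
    (Ioc (lo 0) (hi 0)) (Ioc (lo 1) (hi 1)) n R S hR0 (hR 2) (hg 0) (hg 1)
  have key : (∑ x ∈ Ioc (lo 0) (hi 0), ∑ y ∈ Ioc (lo 1) (hi 1), ∑ z ∈ Ioc (lo 2) (hi 2),
      if x + y + z = n then (∏ i, f i (![x, y, z] i) - ∏ i, g i (![x, y, z] i)) else 0) =
      (∑ x ∈ Ioc (lo 0) (hi 0), ∑ y ∈ Ioc (lo 1) (hi 1), ∑ z ∈ Ioc (lo 2) (hi 2),
        if x + y + z = n then (f 0 x - g 0 x) * f 1 y * f 2 z else 0) +
      (∑ y ∈ Ioc (lo 1) (hi 1), ∑ x ∈ Ioc (lo 0) (hi 0), ∑ z ∈ Ioc (lo 2) (hi 2),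
        if y + x + z = n then (f 1 y - g 1 y) * g 0 x * f 2 z else 0) +
      (∑ z ∈ Ioc (lo 2) (hi 2), ∑ x ∈ Ioc (lo 0) (hi 0), ∑ y ∈ Ioc (lo 1) (hi 1),
        if z + x + y = n then (f 2 z - g 2 z) * g 0 x * g 1 y else 0) := by
    rw [Finset.sum_comm (s := Ioc (lo 1) (hi 1)) (t := Ioc (lo 0) (hi 0)),
      Finset.sum_comm (s := Ioc (lo 2) (hi 2)) (t := Ioc (lo 0) (hi 0)),
      ← Finset.sum_add_distrib, ← Finset.sum_add_distrib]
    refine Finset.sum_congr rfl fun x _ => ?_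
    rw [Finset.sum_comm (s := Ioc (lo 2) (hi 2)) (t := Ioc (lo 1) (hi 1)),
      ← Finset.sum_add_distrib, ← Finset.sum_add_distrib]
    refine Finset.sum_congr rfl fun y _ => ?_
    rw [← Finset.sum_add_distrib, ← Finset.sum_add_distrib]
    refine Finset.sum_congr rfl fun z _ => ?_
    simp only [Fin.prod_univ_three, Matrix.cons_val_zero, Matrix.cons_val_one, Matrix.cons_val]
    by_cases h : x + y + z = n
    · rw [if_pos h, if_pos h, if_pos (by omega), if_pos (by omega)]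
      ring
    · rw [if_neg h, if_neg h, if_neg (by omega), if_neg (by omega)]
      ring
  rw [key]
  refine le_trans (norm_add₃_le) ?_
  linarith

end Pool.Agent.helper74.TG
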