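import Pool.Agent.helper61.TG.WTc

/-!
# GNU project, analytic part: wt:2 (major arcs)
-/

namespace Pool.Agent.helper74.TG

open Finset ArithmeticFunction

namespace h61

theorem prime_sum_sub_real (X : ℕ) (s : ℕ → Prop) [DecidablePred s] :
    |∑ n ∈ Ioc 0 X with s n, vonMangoldt n -
      ∑ n ∈ Ioc 0 X with (s n ∧ n.Prime), Real.log n| ≤ 2 * √(X : ℝ) * Real.log X := by
  have h := prime_sum_sub X s (fun _ => 1) (fun _ => by simp)
  simp only [mul_one] at h
  rw [← Complex.ofReal_sum, ← Complex.ofReal_sum, ← Complex.ofReal_sub, Complex.norm_real] at h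
  exact h

/-- a coprime class -/
theorem class_bound (c X Q b : ℕ) (hcX : c ≤ X) (E : ℝ)
    (hE : |∑ n ∈ Ioc 0 X with n ≡ b [MOD Q], vonMangoldt n - X / (Nat.totient Q : ℝ)| ≤ E) :
    |∑ n ∈ Ioc c X with (n ≡ b [MOD Q] ∧ n.Prime), Real.log n - X / (Nat.totient Q : ℝ)| ≤
      E + 2 * √(X : ℝ) * Real.log X + ∑ n ∈ Ioc 0 c, Real.log n := by
  have h1 := prime_sum_sub_real X (fun n => n ≡ b [MOD Q])
  have h2 : ∑ n ∈ Ioc 0 X with (n ≡ b [MOD Q] ∧ n.Prime), Real.log n =
      ∑ n ∈ Ioc 0 c with (n ≡ b [MOD Q] ∧ n.Prime), Real.log n +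
      ∑ n ∈ Ioc c X with (n ≡ b [MOD Q] ∧ n.Prime), Real.log n := by
    simp only [Finset.sum_filter]
    rw [Finset.sum_Ioc_consecutive _ (Nat.zero_le c) hcX]
  have h0 : ∀ n : ℕ, 0 ≤ Real.log n := fun n => Real.log_natCast_nonneg n
  have h3 : ∑ n ∈ Ioc 0 c with (n ≡ b [MOD Q] ∧ n.Prime), Real.log n ≤
      ∑ n ∈ Ioc 0 c, Real.log n :=
    Finset.sum_le_sum_of_subset_of_nonneg (Finset.filter_subset _ _) (fun n _ _ => h0 n)
  have h4 : 0 ≤ ∑ n ∈ Ioc 0 c with (n ≡ b [MOD Q] ∧ n.Prime), Real.log n :=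
    Finset.sum_nonneg fun n _ => h0 n
  rw [abs_le] at *
  constructor <;> linarith [h1.1, h1.2, hE.1, hE.2]

/-- a class that is not coprime to the modulus -/
theorem bad_class (m c q t X : ℕ) (hq : 0 < q) (hbad : ¬ Nat.Coprime (m * t + c) q) :
    ∑ n ∈ Ioc c X with (n ≡ m * t + c [MOD m * q] ∧ n.Prime), Real.log n ≤ (q : ℝ) ^ 2 := by
  have h0 : ∀ n : ℕ, 0 ≤ Real.log n := fun n => Real.log_natCast_nonneg n
  have h1 : ∑ n ∈ Ioc c X with (n ≡ m * t + c [MOD m * q] ∧ n.Prime), Real.log n ≤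
      ∑ n ∈ Ioc 0 q, Real.log n := by
    refine Finset.sum_le_sum_of_subset_of_nonneg ?_ (fun n _ _ => h0 n)
    intro n hn
    simp only [Finset.mem_filter, Finset.mem_Ioc] at hn ⊢
    refine ⟨hn.2.2.pos, ?_⟩
    have h2 : n ≡ m * t + c [MOD q] := hn.2.1.of_mul_left m
    have h3 : ¬ Nat.Coprime n q := by
      intro h4
      apply hbad
      rw [Nat.Coprime] at *
      rw [← h2.gcd_eq]
      exact h4
    have h4 : n ∣ q := (Nat.Prime.dvd_iff_not_coprime hn.2.2).2 h3
    exact Nat.le_of_dvd hq h4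
  refine h1.trans ?_
  calc ∑ n ∈ Ioc 0 q, Real.log n ≤ ∑ n ∈ Ioc 0 q, (q : ℝ) := by
        refine Finset.sum_le_sum fun n hn => ?_
        rw [Finset.mem_Ioc] at hn
        have h5 : Real.log n ≤ n := (Real.log_le_self (by positivity))
        have h6 : (n : ℝ) ≤ q := by exact_mod_cast hn.2
        linarith
    _ = (q : ℝ) ^ 2 := by
        rw [Finset.sum_const, Nat.card_Ioc, nsmul_eq_mul]
        simp
        ring

/-- the sum of the weight over a class, in terms of primes -/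
theorem fw_class (m c q t v : ℕ) (hm : 0 < m) (ht : t < q) :
    ∑ x ∈ Ioc 0 v with x % q = t, fw m c x = (Nat.totient m / m : ℝ) *
      ∑ n ∈ Ioc c (m * v + c) with (n ≡ m * t + c [MOD m * q] ∧ n.Prime), Real.log n := by
  set g : ℕ → ℝ := fun n => if n ≡ m * t + c [MOD m * q] ∧ n.Prime then Real.log n else 0 with hg
  have h1 : ∑ x ∈ Ioc 0 v with x % q = t, fw m c x =
      (Nat.totient m / m : ℝ) * ∑ x ∈ Ioc 0 v, g (m * x + c) := by
    rw [Finset.mul_sum, Finset.sum_filter]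
    refine Finset.sum_congr rfl fun x _ => ?_
    have h2 : (m * x + c ≡ m * t + c [MOD m * q]) ↔ x % q = t := by
      constructor
      · intro h
        have h3 : m * x ≡ m * t [MOD m * q] := Nat.ModEq.add_right_cancel' c h
        have h4 : x ≡ t [MOD q] := Nat.ModEq.mul_left_cancel' hm.ne' h3
        rw [Nat.ModEq, Nat.mod_eq_of_lt ht] at h4
        exact h4
      · intro h
        have h4 : x ≡ t [MOD q] := by
          rw [Nat.ModEq, Nat.mod_eq_of_lt ht]
          exact h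
        exact (Nat.ModEq.mul_left' m h4).add_right c
    simp only [fw, hg, h2]
    by_cases hx : x % q = t
    · by_cases hp : (m * x + c).Prime
      · simp [hx, hp]
      · simp [hx, hp]
    · simp [hx]
  rw [h1, affine_sum m c v hm g]
  congr 1
  simp only [Finset.sum_filter, hg]
  refine Finset.sum_congr rfl fun n _ => ?_
  by_cases h : n ≡ m * t + c [MOD m * q]
  · have h3 : n ≡ c [MOD m] := by
      have h4 : n ≡ m * t + c [MOD m] := h.of_mul_right q
      refine h4.trans ?_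
      simp [Nat.ModEq]
    simp [h3]
  · simp [h]

theorem sum_fw_split (m c a q v : ℕ) (hq : 0 < q) :
    ∑ x ∈ Ioc 0 v, (fw m c x : ℂ) * ee (x * (-(a / q))) =
      ∑ t ∈ range q, ee (-(a * t / q)) * ((∑ x ∈ Ioc 0 v with x % q = t, fw m c x : ℝ) : ℂ) := by
  have hqr : (q : ℝ) ≠ 0 := by positivity
  have h1 : ∀ x ∈ Ioc 0 v, (fw m c x : ℂ) * ee (x * (-(a / q))) =
      ∑ t ∈ range q, if x % q = t then ee (-(a * t / q)) * (fw m c x : ℂ) else 0 := by
    intro x _
    rw [Finset.sum_ite_eq (range q) (x % q), if_pos (by simpa using Nat.mod_lt x hq)]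
    have h2 : ee (x * (-(a / q))) = ee (-(a * (x % q : ℕ) / q)) := by
      obtain ⟨k, hk⟩ : ∃ k, k = x / q := ⟨_, rfl⟩
      have h3 : (x : ℝ) = q * k + (x % q : ℕ) := by
        rw [hk]
        exact_mod_cast (Nat.div_add_mod x q).symm
      have h4 : (x : ℝ) * (-(a / q)) = -(a * (x % q : ℕ) / q) + ((-((a : ℤ) * (k : ℤ)) : ℤ) : ℝ) := by
        rw [h3]
        push_cast
        field_simp
        ring
      rw [h4, ee_add, ee_int, mul_one]
    rw [h2, mul_comm]
  rw [Finset.sum_congr rfl h1, Finset.sum_comm]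
  refine Finset.sum_congr rfl fun t _ => ?_
  rw [Complex.ofReal_sum, Finset.mul_sum, Finset.sum_filter]

theorem abel_bound (f : ℕ → ℂ) (F β : ℝ) (u : ℕ)
    (hF : ∀ v ≤ u, ‖∑ x ∈ Ioc 0 v, f x‖ ≤ F) :
    ‖∑ x ∈ Ioc 0 u, f x * ee (x * β)‖ ≤ F * (1 + 2 * Real.pi * |β| * u) := by
  have h1 : ∀ w : ℕ, ∑ x ∈ Ioc 0 w, f x * ee (x * β) = (∑ x ∈ Ioc 0 w, f x) * ee (w * β) -
      ∑ v ∈ range w, (∑ x ∈ Ioc 0 v, f x) * (ee ((v + 1 : ℕ) * β) - ee (v * β)) := by
    intro w
    induction w with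
    | zero => simp
    | succ w ih =>
      rw [Finset.sum_Ioc_succ_top (Nat.zero_le w), ih, Finset.sum_Ioc_succ_top (Nat.zero_le w),
        Finset.sum_range_succ]
      ring
  rw [h1 u]
  refine (norm_sub_le _ _).trans ?_
  have h2 : ‖(∑ x ∈ Ioc 0 u, f x) * ee (u * β)‖ ≤ F := by
    rw [norm_mul, ee_norm, mul_one]
    exact hF u le_rfl
  have h3 : ‖∑ v ∈ range u, (∑ x ∈ Ioc 0 v, f x) * (ee ((v + 1 : ℕ) * β) - ee (v * β))‖ ≤
      ∑ v ∈ range u, F * (2 * Real.pi * |β|) := by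
    refine (norm_sum_le _ _).trans (Finset.sum_le_sum fun v hv => ?_)
    rw [Finset.mem_range] at hv
    rw [norm_mul]
    have h4 : ‖ee ((v + 1 : ℕ) * β) - ee (v * β)‖ ≤ 2 * Real.pi * |β| := by
      have h5 : ee ((v + 1 : ℕ) * β) - ee (v * β) = ee (v * β) * (ee β - 1) := by
        have : ((v + 1 : ℕ) : ℝ) * β = v * β + β := by push_cast; ring
        rw [this, ee_add]
        ring
      rw [h5, norm_mul, ee_norm, one_mul]
      have h6 : ee β = Complex.exp (Complex.I * ((2 * Real.pi * β : ℝ) : ℂ)) := by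
        simp only [ee]
        congr 1
        push_cast
        ring
      rw [h6]
      refine (Real.norm_exp_I_mul_ofReal_sub_one_le).trans ?_
      rw [Real.norm_eq_abs, abs_mul, abs_of_pos (by positivity)]
    exact mul_le_mul (hF v hv.le) h4 (norm_nonneg _) ((norm_nonneg _).trans (hF v hv.le))
  rw [Finset.sum_const, Finset.card_range, nsmul_eq_mul] at h3
  linarith

/-- the statement of sw:10 -/
def SWS : Prop := ∀ A B : ℕ, ∃ C x₀ : ℝ, 0 < C ∧ ∀ x : ℝ, x₀ ≤ x → ∀ q : ℕ, 0 < q →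
    (q : ℝ) ≤ Real.log x ^ B → ∀ b : ℕ, Nat.Coprime b q → ∀ u : ℕ, (u : ℝ) ≤ x →
    |∑ n ∈ Ioc 0 u with n ≡ b [MOD q], vonMangoldt n - u / (Nat.totient q : ℝ)|
      ≤ C * x / Real.log x ^ A

theorem F_bound (hS : SWS) (A B m c : ℕ) (hm : 0 < m) (hc : Nat.Coprime c m) :
    ∀ᶠ N : ℕ in Filter.atTop, ∀ a q : ℕ, 0 < q → (q : ℝ) ≤ Real.log N ^ B → ∀ v : ℕ, v ≤ N →
    ‖∑ x ∈ Ioc 0 v, (fw m c x : ℂ) * ee (x * (-(a / q))) - v * Hc m c a q‖ ≤
      N / Real.log N ^ A := by
  obtain ⟨C, x₀, hC, hSW⟩ := hS (A + B + 1) (B + 1)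
  set K := ∑ n ∈ Ioc 0 c, Real.log n with hK
  have hK0 : 0 ≤ K := Finset.sum_nonneg fun n _ => Real.log_natCast_nonneg n
  filter_upwards [ev_log 24, ev_log m, ev_log (10 * m * C),
    ev_pow (40 * m) (A + B + 1) (1 / 2) (by norm_num), ev_pow (5 * (K + c)) (A + B) 1 one_pos,
    ev_pow 5 (A + 3 * B) 1 one_pos, Filter.eventually_ge_atTop 1, Filter.eventually_ge_atTop c,
    Filter.eventually_ge_atTop (2 * m), Filter.eventually_ge_atTop ⌈x₀⌉₊]
    with N e1 e2 e3 e4 e5 e6 hN1 hN2 hN3 hN4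
  intro a q hq hqB v hv
  rw [Real.rpow_one] at e5 e6
  rw [← Real.sqrt_eq_rpow] at e4
  set L := Real.log N with hL
  have h1 : 1 ≤ L := by linarith
  have hL0 : 0 < L := by linarith
  have hNr : (0 : ℝ) < N := by exact_mod_cast hN1
  have hmr : (0 : ℝ) < m := by exact_mod_cast hm
  have hm1 : (1 : ℝ) ≤ m := by exact_mod_cast hm
  have hqr : (0 : ℝ) < q := by exact_mod_cast hq
  set X := m * v + c with hX
  have hX2 : X ≤ 2 * m * N := by
    have h6 : m * v ≤ m * N := Nat.mul_le_mul_left m hv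
    have h7 : c ≤ m * N := hN2.trans (Nat.le_mul_of_pos_left N hm)
    calc X ≤ m * N + m * N := by omega
      _ = 2 * m * N := by ring
  have hX2r : (X : ℝ) ≤ 2 * m * N := by exact_mod_cast hX2
  have hsq : 2 * √(X : ℝ) * Real.log X ≤ 8 * m * √(N : ℝ) * L := by
    rcases Nat.eq_zero_or_pos X with h0 | h0
    · rw [h0]
      simp only [Nat.cast_zero, Real.sqrt_zero, Real.log_zero, mul_zero]
      positivity
    have hX0r : (1 : ℝ) ≤ X := by exact_mod_cast h0
    have a4 : Real.log X ≤ 2 * L := by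
      have : Real.log X ≤ Real.log ((N : ℝ) ^ 2) := by
        apply Real.log_le_log (by positivity)
        have : (2 * m : ℝ) ≤ N := by exact_mod_cast hN3
        nlinarith
      rw [Real.log_pow] at this
      push_cast at this
      exact this
    have a5 : 0 ≤ Real.log X := Real.log_nonneg hX0r
    have a8 : √(X : ℝ) ≤ 2 * m * √(N : ℝ) := by
      apply Real.sqrt_le_iff.2
      refine ⟨by positivity, ?_⟩
      calc (X : ℝ) ≤ 2 * m * N := hX2r
        _ ≤ (2 * m) ^ 2 * N := by nlinarith [mul_pos hmr hNr]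
        _ = (2 * m * √(N : ℝ)) ^ 2 := by
            rw [mul_pow (2 * (m : ℝ)), Real.sq_sqrt hNr.le]
    calc 2 * √(X : ℝ) * Real.log X
        ≤ 2 * (2 * m * √(N : ℝ)) * (2 * L) := by gcongr
      _ = 8 * m * √(N : ℝ) * L := by ring
  have hx0 : x₀ ≤ 2 * m * N := by
    have h6 : x₀ ≤ N := (Nat.le_ceil x₀).trans (by exact_mod_cast hN4)
    nlinarith
  have hlog : L ≤ Real.log (2 * m * N) := by
    apply Real.log_le_log hNr
    nlinarith
  have hphi : (Nat.totient m / m : ℝ) ≤ 1 := by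
    rw [div_le_one hmr]
    exact_mod_cast Nat.totient_le m
  have hphi0 : (0 : ℝ) ≤ Nat.totient m / m := by positivity
  have hqB2 : ((m * q : ℕ) : ℝ) ≤ Real.log (2 * m * N) ^ (B + 1) := by
    push_cast
    calc (m : ℝ) * q ≤ L * L ^ B := by gcongr
      _ = L ^ (B + 1) := by ring
      _ ≤ _ := by gcongr
  have hmq : 0 < m * q := Nat.mul_pos hm hq
  have hphq : (0 : ℝ) < Nat.totient (m * q) := by exact_mod_cast Nat.totient_pos.2 hmq
  set E := 2 * m * C * N / L ^ (A + B + 1) + 8 * m * √(N : ℝ) * L + K + c + L ^ (2 * B) with hE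
  have hD : ∀ t ∈ range q, |(Nat.totient m / m : ℝ) *
      ∑ n ∈ Ioc c X with (n ≡ m * t + c [MOD m * q] ∧ n.Prime), Real.log n -
      (if Nat.Coprime (m * t + c) q then (v : ℝ) * (Nat.totient m / Nat.totient (m * q)) else 0)| ≤
      E := by
    intro t _
    split_ifs with hcop
    · have hcop2 : Nat.Coprime (m * t + c) (m * q) := by
        apply Nat.Coprime.mul_right _ hcop
        rw [Nat.coprime_mul_left_add_left]
        exact hc
      have h6 := hSW (2 * m * N) hx0 (m * q) hmq hqB2 (m * t + c) hcop2 X hX2r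
      have h7 := class_bound c X (m * q) (m * t + c) (by omega) _ h6
      have h8 : C * (2 * m * N) / Real.log (2 * m * N) ^ (A + B + 1) ≤
          2 * m * C * N / L ^ (A + B + 1) := by
        calc C * (2 * m * N) / Real.log (2 * m * N) ^ (A + B + 1)
            ≤ C * (2 * m * N) / L ^ (A + B + 1) := by gcongr
          _ = _ := by ring
      have h9 : (Nat.totient m / m : ℝ) * ∑ n ∈ Ioc c X with
            (n ≡ m * t + c [MOD m * q] ∧ n.Prime), Real.log n -
          (v : ℝ) * (Nat.totient m / Nat.totient (m * q)) =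
          (Nat.totient m / m : ℝ) * (∑ n ∈ Ioc c X with
            (n ≡ m * t + c [MOD m * q] ∧ n.Prime), Real.log n - X / (Nat.totient (m * q) : ℝ)) +
          (Nat.totient m / m : ℝ) * (c / Nat.totient (m * q)) := by
        rw [hX]
        push_cast
        field_simp
        ring
      rw [h9]
      refine (abs_add_le _ _).trans ?_
      have h10 : |(Nat.totient m / m : ℝ) * (∑ n ∈ Ioc c X with
            (n ≡ m * t + c [MOD m * q] ∧ n.Prime), Real.log n - X / (Nat.totient (m * q) : ℝ))| ≤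
          1 * |∑ n ∈ Ioc c X with
            (n ≡ m * t + c [MOD m * q] ∧ n.Prime), Real.log n - X / (Nat.totient (m * q) : ℝ)| := by
        rw [abs_mul, abs_of_nonneg hphi0]
        gcongr
      have h11 : |(Nat.totient m / m : ℝ) * (c / Nat.totient (m * q))| ≤ c := by
        rw [abs_of_nonneg (by positivity)]
        have h12 : (c : ℝ) / Nat.totient (m * q) ≤ c := by
          apply div_le_self (by positivity)
          exact_mod_cast Nat.totient_pos.2 hmq
        calc (Nat.totient m / m : ℝ) * (c / Nat.totient (m * q)) ≤ 1 * c := by gcongr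
          _ = c := one_mul _
      have h13 : 0 ≤ L ^ (2 * B) := by positivity
      linarith
    · rw [sub_zero, abs_of_nonneg (by
        apply mul_nonneg hphi0
        exact Finset.sum_nonneg fun n _ => Real.log_natCast_nonneg n)]
      have h6 := bad_class m c q t X hq hcop
      have h7 : (q : ℝ) ^ 2 ≤ L ^ (2 * B) := by
        calc (q : ℝ) ^ 2 ≤ (L ^ B) ^ 2 := by gcongr
          _ = L ^ (2 * B) := by rw [← pow_mul, mul_comm]
      have h8 : 0 ≤ ∑ n ∈ Ioc c X with (n ≡ m * t + c [MOD m * q] ∧ n.Prime), Real.log n :=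
        Finset.sum_nonneg fun n _ => Real.log_natCast_nonneg n
      have h9 : 0 ≤ 2 * m * C * N / L ^ (A + B + 1) + 8 * m * √(N : ℝ) * L + K + c := by
        positivity
      calc (Nat.totient m / m : ℝ) * _ ≤ 1 * ∑ n ∈ Ioc c X with
            (n ≡ m * t + c [MOD m * q] ∧ n.Prime), Real.log n := by gcongr
        _ ≤ L ^ (2 * B) := by linarith
        _ ≤ E := by linarith
  have hmain : ∑ x ∈ Ioc 0 v, (fw m c x : ℂ) * ee (x * (-(a / q))) - v * Hc m c a q =
      ∑ t ∈ range q, ee (-(a * t / q)) * (((Nat.totient m / m : ℝ) *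
      ∑ n ∈ Ioc c X with (n ≡ m * t + c [MOD m * q] ∧ n.Prime), Real.log n -
      (if Nat.Coprime (m * t + c) q then (v : ℝ) * (Nat.totient m / Nat.totient (m * q)) else 0) :
        ℝ) : ℂ) := by
    rw [sum_fw_split m c a q v hq]
    simp only [Hc]
    rw [Finset.sum_filter, Finset.mul_sum, Finset.mul_sum, ← Finset.sum_sub_distrib]
    refine Finset.sum_congr rfl fun t ht => ?_
    rw [fw_class m c q t v hm (Finset.mem_range.1 ht)]
    split_ifs
    · push_cast
      ring
    · push_cast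
      ring
  rw [hmain]
  have hsum : ‖∑ t ∈ range q, ee (-(a * t / q)) * (((Nat.totient m / m : ℝ) *
      ∑ n ∈ Ioc c X with (n ≡ m * t + c [MOD m * q] ∧ n.Prime), Real.log n -
      (if Nat.Coprime (m * t + c) q then (v : ℝ) * (Nat.totient m / Nat.totient (m * q)) else 0) :
        ℝ) : ℂ)‖ ≤ ∑ t ∈ range q, E := by
    refine (norm_sum_le _ _).trans (Finset.sum_le_sum fun t ht => ?_)
    rw [norm_mul, ee_norm, one_mul, Complex.norm_real]
    exact hD t ht
  refine hsum.trans ?_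
  rw [Finset.sum_const, Finset.card_range, nsmul_eq_mul]
  have hE0 : 0 ≤ E := by positivity
  calc (q : ℝ) * E ≤ L ^ B * E := by gcongr
    _ = 2 * m * C * N * L ^ B / L ^ (A + B + 1) + 8 * m * L ^ (B + 1) * √(N : ℝ) +
        (K + c) * L ^ B + L ^ (3 * B) := by
        rw [hE]
        ring
    _ ≤ N / L ^ A / 5 + N / L ^ A / 5 + N / L ^ A / 5 + N / L ^ A / 5 := by
        refine add_le_add (add_le_add (add_le_add ?_ ?_) ?_) ?_
        · have h6 : 2 * m * C * N * L ^ B / L ^ (A + B + 1) = (N / L ^ A) * (2 * m * C / L) := by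
            rw [pow_add, pow_add]
            field_simp
          rw [h6, div_eq_mul_one_div (N / L ^ A) 5]
          refine mul_le_mul_of_nonneg_left ?_ (by positivity)
          rw [div_le_div_iff₀ hL0 (by norm_num)]
          linarith
        · rw [div_div, le_div_iff₀ (by positivity)]
          calc 8 * m * L ^ (B + 1) * √(N : ℝ) * (L ^ A * 5)
              = (40 * m * L ^ (A + B + 1)) * √(N : ℝ) := by ring
            _ ≤ √(N : ℝ) * √(N : ℝ) := by gcongr
            _ = N := Real.mul_self_sqrt hNr.le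
        · rw [div_div, le_div_iff₀ (by positivity)]
          calc (K + c) * L ^ B * (L ^ A * 5) = 5 * (K + c) * L ^ (A + B) := by ring
            _ ≤ N := e5
        · rw [div_div, le_div_iff₀ (by positivity)]
          calc L ^ (3 * B) * (L ^ A * 5) = 5 * L ^ (A + 3 * B) := by ring
            _ ≤ N := e6
    _ ≤ N / L ^ A := by
        have : 0 ≤ (N : ℝ) / L ^ A := by positivity
        linarith

/-- wt:2, given sw:10 -/
theorem fw_major_of (hS : SWS) (A B m c : ℕ) (hm : 0 < m) (hc : Nat.Coprime c m) :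
    ∃ N₀ : ℕ, ∀ N : ℕ, N₀ ≤ N →
    ∀ a q : ℕ, 0 < q → (q : ℝ) ≤ Real.log N ^ B → Nat.Coprime a q →
    ∀ β : ℝ, |β| ≤ Real.log N ^ B / N → ∀ u : ℕ, u ≤ N →
    ‖∑ x ∈ Ioc 0 u, (fw m c x : ℂ) * ee (x * (-(a / q) + β)) -
      Hc m c a q * ∑ x ∈ Ioc 0 u, ee (x * β)‖ ≤ N / Real.log N ^ A := by
  obtain ⟨N₀, hN₀⟩ := Filter.eventually_atTop.1
    ((F_bound hS (A + B + 1) B m c hm hc).and <| (ev_log 8).and (Filter.eventually_ge_atTop 1))
  refine ⟨N₀, fun N hN a q hq hqB _ β hβ u hu => ?_⟩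
  obtain ⟨hF, h8, hN1⟩ := hN₀ N hN
  set L := Real.log N with hL
  have hL0 : 0 < L := by linarith
  have hNr : (0 : ℝ) < N := by exact_mod_cast hN1
  have h1 := abel_bound (fun x => (fw m c x : ℂ) * ee (x * (-(a / q))) - Hc m c a q)
    (N / L ^ (A + B + 1)) β u (fun v hv => by
      have h2 := hF a q hq hqB v (hv.trans hu)
      rw [Finset.sum_sub_distrib, Finset.sum_const, Nat.card_Ioc, nsmul_eq_mul]
      simpa using h2)
  have h2 : ∑ x ∈ Ioc 0 u, (fw m c x : ℂ) * ee (x * (-(a / q) + β)) -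
      Hc m c a q * ∑ x ∈ Ioc 0 u, ee (x * β) =
      ∑ x ∈ Ioc 0 u, ((fw m c x : ℂ) * ee (x * (-(a / q))) - Hc m c a q) * ee (x * β) := by
    rw [Finset.mul_sum, ← Finset.sum_sub_distrib]
    refine Finset.sum_congr rfl fun x _ => ?_
    rw [mul_add, ee_add]
    ring
  rw [h2]
  refine h1.trans ?_
  have h3 : |β| * u ≤ L ^ B := by
    have h4 : (u : ℝ) ≤ N := by exact_mod_cast hu
    calc |β| * u ≤ (L ^ B / N) * N := by gcongr
      _ = L ^ B := by field_simp
  have h5 : 1 ≤ L ^ B := one_le_pow₀ (by linarith)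
  have h6 : 1 + 2 * Real.pi * |β| * u ≤ 8 * L ^ B := by
    have h7 : Real.pi ≤ 3.5 := by
      have := Real.pi_lt_d2
      linarith
    have h9 : 0 ≤ |β| * u := by positivity
    have h10 : Real.pi * (|β| * u) ≤ 3.5 * L ^ B := by
      calc Real.pi * (|β| * u) ≤ 3.5 * (|β| * u) := by gcongr
        _ ≤ 3.5 * L ^ B := by gcongr
    linarith
  calc N / L ^ (A + B + 1) * (1 + 2 * Real.pi * |β| * u) ≤ N / L ^ (A + B + 1) * (8 * L ^ B) := by
        gcongr
    _ = (N / L ^ A) * (8 / L) := by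
        rw [pow_add, pow_add]
        field_simp
    _ ≤ (N / L ^ A) * 1 := by
        gcongr
        rw [div_le_one hL0]
        exact h8
    _ = N / L ^ A := mul_one _

end h61

end Pool.Agent.helper74.TG
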