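import Pool.Agent.helper61.TG.WT3of
import Pool.Agent.helper85.TG.VA4

/-!
# GNU project, analytic part: wt:3 (minor arcs), final form
-/

namespace Pool.Agent.helper74.TG

open Finset ArithmeticFunction

/-- wt:3: minor arcs. -/
theorem fw_minor (A m c : ℕ) (hm : 0 < m) (_hc : Nat.Coprime c m) : ∃ N₀ : ℕ, ∀ N : ℕ, N₀ ≤ N →
    ∀ α : ℝ, (¬ ∃ (a : ℤ) (q : ℕ), 0 < q ∧ (q : ℝ) ≤ Real.log N ^ (2 * A + 12) ∧
      IsCoprime a (q : ℤ) ∧ |α + a / q| ≤ Real.log N ^ (2 * A + 12) / N) → ∀ u : ℕ, u ≤ N →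
    ‖∑ x ∈ Ioc 0 u, (fw m c x : ℂ) * ee (x * α)‖ ≤ N / Real.log N ^ A := by
  obtain ⟨C, hC, hV⟩ := vaughan_minor
  exact h61.fw_minor_of C hC hV A m c hm

end Pool.Agent.helper74.TG
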