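import Pool.Agent.helper24.TG.S3

set_option linter.all false
set_option autoImplicit false

/-!
# Module QW (MP_ce98d8_co): counting words with few good coordinates
-/

namespace Pool.Agent.helper24.TG

open Finset Classical

theorem QW_one (V : Type) [Fintype V] [DecidableEq V] (g s h : ℕ)
    (Y : Fin g → Finset V) (hY : ∀ i, h ≤ (Y i).card) (D : Finset (Fin g)) (hD : D.card = s) :
    (Fintype.piFinset (fun i => if i ∈ D then (Finset.univ : Finset V) else (Y i)ᶜ)).card ≤
      Fintype.card V ^ s * (Fintype.card V - h) ^ (g - s) := by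
  rw [Fintype.card_piFinset, ← Finset.prod_mul_prod_compl D]
  have h1 : ∏ i ∈ D, (if i ∈ D then (Finset.univ : Finset V) else (Y i)ᶜ).card =
      Fintype.card V ^ s := by
    rw [← hD, ← Finset.prod_const]
    refine Finset.prod_congr rfl (fun i hi => ?_)
    rw [if_pos hi, Finset.card_univ]
  have h2 : ∏ i ∈ Dᶜ, (if i ∈ D then (Finset.univ : Finset V) else (Y i)ᶜ).card ≤
      (Fintype.card V - h) ^ (g - s) := by
    have h3 : (Dᶜ).card = g - s := by
      rw [Finset.card_compl, Fintype.card_fin, hD]
    rw [← h3, ← Finset.prod_const]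
    refine Finset.prod_le_prod' (fun i hi => ?_)
    rw [Finset.mem_compl] at hi
    rw [if_neg hi, Finset.card_compl]
    exact Nat.sub_le_sub_left (hY i) _
  rw [h1]
  exact Nat.mul_le_mul_left _ h2

theorem QW : QW_stmt := by
  intro V _ _ g s h Y hs hY
  have hsub : ((Finset.univ : Finset (Fin g → V)).filter (fun w =>
      (Finset.univ.filter (fun i => w i ∈ Y i)).card < s)) ⊆
      (Finset.powersetCard s (Finset.univ : Finset (Fin g))).biUnion (fun D =>
        Fintype.piFinset (fun i => if i ∈ D then (Finset.univ : Finset V) else (Y i)ᶜ)) := by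
    intro w hw
    rw [Finset.mem_filter] at hw
    obtain ⟨D, hD1, hD2⟩ := Finset.exists_superset_card_eq (s := Finset.univ.filter
      (fun i => w i ∈ Y i)) (n := s) hw.2.le (by rw [Fintype.card_fin]; exact hs)
    rw [Finset.mem_biUnion]
    refine ⟨D, Finset.mem_powersetCard.2 ⟨Finset.subset_univ _, hD2⟩, ?_⟩
    rw [Fintype.mem_piFinset]
    intro i
    by_cases hi : i ∈ D
    · rw [if_pos hi]; exact Finset.mem_univ _
    · rw [if_neg hi, Finset.mem_compl]
      intro h1
      exact hi (hD1 (Finset.mem_filter.2 ⟨Finset.mem_univ _, h1⟩))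
  refine (Finset.card_le_card hsub).trans ?_
  refine Finset.card_biUnion_le.trans ?_
  have h1 : ∀ D ∈ Finset.powersetCard s (Finset.univ : Finset (Fin g)),
      (Fintype.piFinset (fun i => if i ∈ D then (Finset.univ : Finset V) else (Y i)ᶜ)).card ≤
      Fintype.card V ^ s * (Fintype.card V - h) ^ (g - s) := by
    intro D hD
    exact QW_one V g s h Y hY D (Finset.mem_powersetCard.1 hD).2
  refine (Finset.sum_le_card_nsmul _ _ _ h1).trans ?_
  rw [Finset.card_powersetCard, Finset.card_univ, Fintype.card_fin, smul_eq_mul, mul_assoc]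
  refine Nat.mul_le_mul_right _ ?_
  calc g.choose s ≤ g ^ s := Nat.choose_le_pow g s
    _ ≤ (g + 1) ^ s := Nat.pow_le_pow_left (Nat.le_succ g) s

end Pool.Agent.helper24.TG
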