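import Pool.Agent.helper61.TG.WTc

/-!
# GNU project, analytic part: wt:3 (minor arcs)
-/

namespace Pool.Agent.helper74.TG

open Finset ArithmeticFunction

namespace h61

theorem detect (m : ℕ) (hm : 0 < m) (c n : ℕ) :
    (∑ j ∈ range m, ee (((n : ℝ) - c) * (j / m))) = if n ≡ c [MOD m] then (m : ℂ) else 0 := by
  have hmr : (m : ℝ) ≠ 0 := by positivity
  have h1 : ∀ j : ℕ, ee (((n : ℝ) - c) * (j / m)) = ee (((n : ℝ) - c) / m) ^ j := by
    intro j
    rw [← ee_nat_mul]
    congr 1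
    ring
  simp only [h1]
  split_ifs with h
  · have h2 : ee (((n : ℝ) - c) / m) = 1 := by
      obtain ⟨k, hk⟩ := (Nat.modEq_iff_dvd.1 h.symm)
      have h3 : ((n : ℝ) - c) / m = (k : ℝ) := by
        rw [div_eq_iff hmr]
        have : ((n : ℤ) : ℝ) - ((c : ℤ) : ℝ) = ((m : ℤ) : ℝ) * (k : ℝ) := by
          exact_mod_cast hk
        push_cast at this
        linarith
      rw [h3, ee_int]
    simp [h2]
  · have h2 : ee (((n : ℝ) - c) / m) ≠ 1 := by
      intro h3
      obtain ⟨k, hk⟩ := ee_eq_one h3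
      rw [div_eq_iff hmr] at hk
      apply h
      refine (Nat.modEq_iff_dvd.2 ⟨k, ?_⟩).symm
      have : ((n : ℤ) : ℝ) - ((c : ℤ) : ℝ) = ((m : ℤ) : ℝ) * (k : ℝ) := by
        push_cast
        linarith
      exact_mod_cast this
    rw [geom_sum_eq h2, ← ee_nat_mul]
    have h3 : (m : ℝ) * (((n : ℝ) - c) / m) = ((((n : ℤ) - (c : ℤ) : ℤ)) : ℝ) := by
      push_cast
      field_simp
    rw [h3, ee_int, sub_self, zero_div]

theorem fw_transform (m c u : ℕ) (hm : 0 < m) (α : ℝ) :
    ‖∑ x ∈ Ioc 0 u, (fw m c x : ℂ) * ee (x * α)‖ ≤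
      (1 / m) * ∑ j ∈ range m, ‖∑ n ∈ Ioc c (m * u + c) with n.Prime,
        (Real.log n : ℂ) * ee (n * ((α + j) / m))‖ := by
  have hmr : (m : ℝ) ≠ 0 := by positivity
  have hmc : (m : ℂ) ≠ 0 := by exact_mod_cast hm.ne'
  set g : ℕ → ℂ := fun n => if n.Prime then (Real.log n : ℂ) * ee (((n : ℝ) - c) / m * α) else 0
    with hg
  have h1 : ∑ x ∈ Ioc 0 u, (fw m c x : ℂ) * ee (x * α) =
      (Nat.totient m / m : ℝ) * ∑ x ∈ Ioc 0 u, g (m * x + c) := by
    rw [Finset.mul_sum]
    refine Finset.sum_congr rfl fun x _ => ?_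
    simp only [fw, hg]
    have h2 : (((m * x + c : ℕ) : ℝ) - c) / m * α = x * α := by
      push_cast
      field_simp
      ring
    rw [h2]
    split_ifs
    · push_cast
      ring
    · simp
  rw [h1, affine_sum m c u hm g]
  have h3 : ∑ n ∈ Ioc c (m * u + c) with n ≡ c [MOD m], g n =
      (1 / m : ℂ) * ∑ j ∈ range m, ee (-(c * ((α + j) / m))) *
        ∑ n ∈ Ioc c (m * u + c) with n.Prime, (Real.log n : ℂ) * ee (n * ((α + j) / m)) := by
    have h4 : ∀ n ∈ Ioc c (m * u + c), (if n ≡ c [MOD m] then g n else 0) =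
        (1 / m : ℂ) * ∑ j ∈ range m, ee (-(c * ((α + j) / m))) *
          (if n.Prime then (Real.log n : ℂ) * ee (n * ((α + j) / m)) else 0) := by
      intro n _
      by_cases hp : n.Prime
      · simp only [hg, if_pos hp]
        have h5 : ∀ j ∈ range m, ee (-(c * ((α + j) / m))) *
            ((Real.log n : ℂ) * ee (n * ((α + j) / m))) =
            ((Real.log n : ℂ) * ee (((n : ℝ) - c) / m * α)) * ee (((n : ℝ) - c) * (j / m)) := by
          intro j _
          have h6 : ee (-(c * ((α + j) / m))) * ee (n * ((α + j) / m)) =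
              ee (((n : ℝ) - c) / m * α) * ee (((n : ℝ) - c) * (j / m)) := by
            rw [← ee_add, ← ee_add]
            congr 1
            field_simp
            ring
          linear_combination (Real.log n : ℂ) * h6
        rw [Finset.sum_congr rfl h5, ← Finset.mul_sum, detect m hm c n]
        split_ifs
        · field_simp
        · simp
      · simp [hg, hp]
    rw [Finset.sum_filter, Finset.sum_congr rfl h4, ← Finset.mul_sum, Finset.sum_comm]
    congr 1
    refine Finset.sum_congr rfl fun j _ => ?_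
    rw [← Finset.mul_sum, Finset.sum_filter]
  rw [h3, norm_mul, norm_mul]
  have h5 : ‖((Nat.totient m / m : ℝ) : ℂ)‖ ≤ 1 := by
    rw [Complex.norm_real, Real.norm_of_nonneg (by positivity)]
    rw [div_le_one (by positivity)]
    exact_mod_cast Nat.totient_le m
  have h6 : ‖(1 / m : ℂ)‖ = 1 / m := by
    rw [norm_div, norm_one, Complex.norm_natCast]
  rw [h6]
  have h7 : ‖∑ j ∈ range m, ee (-(c * ((α + j) / m))) *
        ∑ n ∈ Ioc c (m * u + c) with n.Prime, (Real.log n : ℂ) * ee (n * ((α + j) / m))‖ ≤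
      ∑ j ∈ range m, ‖∑ n ∈ Ioc c (m * u + c) with n.Prime,
        (Real.log n : ℂ) * ee (n * ((α + j) / m))‖ := by
    refine (norm_sum_le _ _).trans (Finset.sum_le_sum fun j _ => ?_)
    rw [norm_mul, ee_norm, one_mul]
  have h8 : (0 : ℝ) ≤ 1 / m := by positivity
  calc _ ≤ 1 * ((1 / m : ℝ) * _) :=
        mul_le_mul h5 (mul_le_mul_of_nonneg_left h7 h8) (by positivity) (by positivity)
    _ = _ := one_mul _

/-- the initial segment and the prime powers -/
theorem inner_bound (c X : ℕ) (hcX : c ≤ X) (β : ℝ) :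
    ‖∑ n ∈ Ioc c X with n.Prime, (Real.log n : ℂ) * ee (n * β)‖ ≤
      ‖∑ n ∈ Ioc 0 X, (vonMangoldt n : ℂ) * ee (n * β)‖ + 2 * √(X : ℝ) * Real.log X +
        ∑ n ∈ Ioc 0 c, Real.log n := by
  have h1 := prime_sum_sub X (fun _ => True) (fun n => ee (n * β)) (fun n => (ee_norm _).le)
  simp only [Finset.filter_true, true_and] at h1
  have h2 : ∑ n ∈ Ioc 0 X with n.Prime, (Real.log n : ℂ) * ee (n * β) =
      ∑ n ∈ Ioc 0 c with n.Prime, (Real.log n : ℂ) * ee (n * β) +
      ∑ n ∈ Ioc c X with n.Prime, (Real.log n : ℂ) * ee (n * β) := by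
    simp only [Finset.sum_filter]
    rw [Finset.sum_Ioc_consecutive _ (Nat.zero_le c) hcX]
  have h3 : ‖∑ n ∈ Ioc 0 c with n.Prime, (Real.log n : ℂ) * ee (n * β)‖ ≤
      ∑ n ∈ Ioc 0 c, Real.log n := by
    refine (norm_sum_le _ _).trans ?_
    rw [Finset.sum_filter]
    refine Finset.sum_le_sum fun n _ => ?_
    have h0 : 0 ≤ Real.log n := Real.log_natCast_nonneg n
    split_ifs
    · rw [norm_mul, ee_norm, mul_one, Complex.norm_real, Real.norm_of_nonneg h0]
    · exact h0
  have h4 : ∑ n ∈ Ioc c X with n.Prime, (Real.log n : ℂ) * ee (n * β) =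
      ∑ n ∈ Ioc 0 X, (vonMangoldt n : ℂ) * ee (n * β) -
      (∑ n ∈ Ioc 0 X, (vonMangoldt n : ℂ) * ee (n * β) -
        ∑ n ∈ Ioc 0 X with n.Prime, (Real.log n : ℂ) * ee (n * β)) -
      ∑ n ∈ Ioc 0 c with n.Prime, (Real.log n : ℂ) * ee (n * β) := by
    rw [h2]; ring
  rw [h4]
  refine (norm_sub_le _ _).trans ?_
  have h5 := norm_sub_le (∑ n ∈ Ioc 0 X, (vonMangoldt n : ℂ) * ee (n * β))
    (∑ n ∈ Ioc 0 X, (vonMangoldt n : ℂ) * ee (n * β) -
        ∑ n ∈ Ioc 0 X with n.Prime, (Real.log n : ℂ) * ee (n * β))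
  linarith

/-- the statement of va:4 with its constant -/
def VM (C : ℝ) : Prop := ∀ (α : ℝ) (a : ℤ) (q N : ℕ), 0 < q → 2 ≤ N → q ≤ N →
    IsCoprime a (q : ℤ) → |α - a / q| ≤ 1 / (q : ℝ) ^ 2 →
    ‖∑ n ∈ Ioc 0 N, (vonMangoldt n : ℂ) * ee (n * α)‖ ≤
      C * (N / √q + (N : ℝ) ^ (4 / 5 : ℝ) + √(N * q)) * Real.log N ^ 4

/-- a single frequency -/
theorem vino (C : ℝ) (hC : 0 < C) (hV : VM C) (A m c N : ℕ) (hm : 0 < m) (hN0 : 0 < N)
    (h1 : 1 ≤ Real.log N) (h24 : 24 ≤ Real.log N) (hLm : (m : ℝ) ≤ Real.log N)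
    (hLC : 512 * C * m ≤ Real.log N) (hcN : c ≤ N) (h2m : 2 * m ≤ N)
    (hY : Real.log N ^ (2 * A + 11) ≤ (N : ℝ))
    (h5 : 256 * C * m * Real.log N ^ (A + 4) ≤ (N : ℝ) ^ (1 / 5 : ℝ)) (α : ℝ)
    (hα : ¬ ∃ (a : ℤ) (q : ℕ), 0 < q ∧ (q : ℝ) ≤ Real.log N ^ (2 * A + 12) ∧
      IsCoprime a (q : ℤ) ∧ |α + a / q| ≤ Real.log N ^ (2 * A + 12) / N) (u : ℕ) (hu : u ≤ N)
    (j : ℕ) :
    ‖∑ n ∈ Ioc 0 (m * u + c), (vonMangoldt n : ℂ) * ee (n * ((α + j) / m))‖ ≤
      N / (4 * Real.log N ^ A) := by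
  set L := Real.log N with hL
  have hL0 : 0 < L := by linarith
  have hNr : (0 : ℝ) < N := by exact_mod_cast hN0
  have hmr : (0 : ℝ) < m := by exact_mod_cast hm
  set X := m * u + c with hX
  have hX2 : X ≤ 2 * m * N := by
    have h6 : m * u ≤ m * N := Nat.mul_le_mul_left m hu
    have h7 : c ≤ m * N := hcN.trans (Nat.le_mul_of_pos_left N hm)
    calc X ≤ m * N + m * N := by omega
      _ = 2 * m * N := by ring
  have hX2r : (X : ℝ) ≤ 2 * m * N := by exact_mod_cast hX2
  set Y : ℝ := N / L ^ (2 * A + 11) with hYdef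
  have hY1 : 1 ≤ Y := by
    rw [hYdef, le_div_iff₀ (by positivity), one_mul]
    exact hY
  set n₀ := ⌊Y⌋₊ with hn₀
  have hn₀1 : 0 < n₀ := Nat.floor_pos.2 hY1
  have hn₀Y : (n₀ : ℝ) ≤ Y := Nat.floor_le (by positivity)
  have hYn₀ : Y ≤ n₀ + 1 := (Nat.lt_floor_add_one Y).le
  set β := (α + j) / m with hβ
  obtain ⟨r, hr1, hr2⟩ := Real.exists_rat_abs_sub_le_and_den_le β hn₀1
  have hq0 : 0 < r.den := r.pos
  have hq0r : (0 : ℝ) < r.den := by exact_mod_cast hq0
  have hq1r : (1 : ℝ) ≤ r.den := by exact_mod_cast hq0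
  have hqY : (r.den : ℝ) ≤ Y := le_trans (by exact_mod_cast hr2) hn₀Y
  have hrr : (r : ℝ) = r.num / r.den := by
    exact_mod_cast (Rat.num_div_den r).symm
  by_cases hbig : (r.den : ℝ) ≤ L ^ (2 * A + 12)
  · exfalso
    apply hα
    set b : ℤ := m * r.num - j * r.den with hb
    set s : ℚ := (b / (r.den : ℤ) : ℚ) with hs
    have hs1 : ((s.den : ℕ) : ℤ) ∣ (r.den : ℤ) := by
      have := Rat.den_dvd b (r.den : ℤ)
      rw [← Rat.intCast_div_eq_divInt] at this
      exact this
    have hs2 : s.den ≤ r.den := Nat.le_of_dvd hq0 (by exact_mod_cast hs1)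
    have hsr : (s : ℝ) = m * r - j := by
      rw [hs, hrr]
      push_cast [hb]
      field_simp
    have hsr2 : (s : ℝ) = s.num / s.den := by
      exact_mod_cast (Rat.num_div_den s).symm
    refine ⟨-s.num, s.den, s.pos, le_trans (by exact_mod_cast hs2) hbig, ?_, ?_⟩
    · rw [IsCoprime.neg_left_iff, Int.isCoprime_iff_gcd_eq_one]
      exact s.reduced
    · have h6 : α + ((-s.num : ℤ) : ℝ) / s.den = m * (β - r) := by
        have : ((-s.num : ℤ) : ℝ) / s.den = - (s : ℝ) := by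
          rw [hsr2]; push_cast; ring
        rw [this, hsr, hβ]
        field_simp
        ring
      rw [h6, abs_mul, abs_of_pos hmr]
      have h7 : |β - r| ≤ 1 / Y := by
        refine hr1.trans (one_div_le_one_div_of_le (by positivity) ?_)
        calc Y ≤ n₀ + 1 := hYn₀
          _ = (n₀ + 1) * 1 := by ring
          _ ≤ (n₀ + 1) * r.den := by gcongr
      calc (m : ℝ) * |β - r| ≤ m * (1 / Y) := by gcongr
        _ ≤ L * (1 / Y) := by gcongr
        _ = L ^ (2 * A + 12) / N := by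
            rw [hYdef]
            field_simp
            ring
  · push Not at hbig
    by_cases hX1 : r.den ≤ X ∧ 2 ≤ X
    · have hcop : IsCoprime r.num (r.den : ℤ) := by
        rw [Int.isCoprime_iff_gcd_eq_one]
        exact r.reduced
      have h6 := hV β r.num r.den X hq0 hX1.2 hX1.1 hcop (by
        rw [← hrr]
        refine hr1.trans (one_div_le_one_div_of_le (by positivity) ?_)
        rw [sq]
        gcongr
        calc (r.den : ℝ) ≤ n₀ := by exact_mod_cast hr2
          _ ≤ n₀ + 1 := by linarith)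
      refine h6.trans ?_
      have hX0r : (1 : ℝ) ≤ X := by
        have := hX1.2
        exact_mod_cast (by omega : 1 ≤ X)
      have a1 : (X : ℝ) / √(r.den : ℝ) ≤ 2 * m * N / L ^ (A + 6) := by
        have h7 : L ^ (A + 6) ≤ √(r.den : ℝ) := by
          apply Real.le_sqrt_of_sq_le
          rw [← pow_mul, show (A + 6) * 2 = 2 * A + 12 by ring]
          exact hbig.le
        gcongr
      have a2 : (X : ℝ) ^ (4 / 5 : ℝ) ≤ 2 * m * (N : ℝ) ^ (4 / 5 : ℝ) := by
        calc (X : ℝ) ^ (4 / 5 : ℝ) ≤ (2 * m * N : ℝ) ^ (4 / 5 : ℝ) := by gcongr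
          _ = (2 * m : ℝ) ^ (4 / 5 : ℝ) * (N : ℝ) ^ (4 / 5 : ℝ) := by
              rw [Real.mul_rpow (by positivity) (by positivity)]
          _ ≤ (2 * m : ℝ) ^ (1 : ℝ) * (N : ℝ) ^ (4 / 5 : ℝ) := by
              gcongr
              · have : (1 : ℝ) ≤ m := by exact_mod_cast hm
                linarith
              · norm_num
          _ = _ := by rw [Real.rpow_one]
      have a3 : √((X : ℝ) * r.den) ≤ 2 * m * N / L ^ (A + 5) := by
        apply Real.sqrt_le_iff.2
        refine ⟨by positivity, ?_⟩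
        calc (X : ℝ) * r.den ≤ (2 * m * N) * Y := by gcongr
          _ = (2 * m) * N ^ 2 / L ^ (2 * A + 11) := by rw [hYdef]; ring
          _ ≤ (2 * m) ^ 2 * N ^ 2 / L ^ (2 * A + 10) := by
              gcongr
              · have : (1 : ℝ) ≤ m := by exact_mod_cast hm
                nlinarith
              · norm_num
          _ = (2 * m * N / L ^ (A + 5)) ^ 2 := by
              rw [div_pow, ← pow_mul]
              ring
      have a4 : Real.log X ≤ 2 * L := by
        have : Real.log X ≤ Real.log ((N : ℝ) ^ 2) := by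
          apply Real.log_le_log (by positivity)
          have : (2 * m : ℝ) ≤ N := by exact_mod_cast h2m
          nlinarith
        rw [Real.log_pow] at this
        push_cast at this
        exact this
      have a5 : 0 ≤ Real.log X := Real.log_nonneg hX0r
      have a6 : Real.log X ^ 4 ≤ 16 * L ^ 4 := by
        calc Real.log X ^ 4 ≤ (2 * L) ^ 4 := by gcongr
          _ = _ := by ring
      have a7 : (X : ℝ) / √(r.den : ℝ) + (X : ℝ) ^ (4 / 5 : ℝ) + √((X : ℝ) * r.den) ≤
          2 * m * (2 * (N / L ^ (A + 5)) + (N : ℝ) ^ (4 / 5 : ℝ)) := by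
        have h7 : (2 * m * N : ℝ) / L ^ (A + 6) ≤ 2 * m * N / L ^ (A + 5) := by
          gcongr
          norm_num
        have h8 : (2 * m * N : ℝ) / L ^ (A + 5) = 2 * m * (N / L ^ (A + 5)) := by ring
        rw [h8] at h7 a3
        linarith
      calc C * ((X : ℝ) / √(r.den : ℝ) + (X : ℝ) ^ (4 / 5 : ℝ) + √((X : ℝ) * r.den)) *
            Real.log X ^ 4
          ≤ C * (2 * m * (2 * (N / L ^ (A + 5)) + (N : ℝ) ^ (4 / 5 : ℝ))) * (16 * L ^ 4) := by
            gcongr
        _ = 64 * C * m * (N * L ^ 4 / L ^ (A + 5)) + 32 * C * m * L ^ 4 * (N : ℝ) ^ (4 / 5 : ℝ) := by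
            ring
        _ ≤ N / (8 * L ^ A) + N / (8 * L ^ A) := by
            apply add_le_add
            · have h9 : (N : ℝ) * L ^ 4 / L ^ (A + 5) = N / L ^ A / L := by
                rw [pow_add]
                field_simp
              rw [h9]
              have h10 : (N : ℝ) / (8 * L ^ A) = (N / L ^ A) / 8 := by field_simp
              rw [h10, ← mul_div_assoc, div_le_div_iff₀ hL0 (by norm_num)]
              have h11 : 0 ≤ (N : ℝ) / L ^ A := by positivity
              nlinarith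
            · rw [le_div_iff₀ (by positivity)]
              have h9 : (N : ℝ) = (N : ℝ) ^ (1 / 5 : ℝ) * (N : ℝ) ^ (4 / 5 : ℝ) := by
                rw [← Real.rpow_add hNr]
                norm_num
              calc 32 * C * m * L ^ 4 * (N : ℝ) ^ (4 / 5 : ℝ) * (8 * L ^ A)
                  = (256 * C * m * L ^ (A + 4)) * (N : ℝ) ^ (4 / 5 : ℝ) := by ring
                _ ≤ (N : ℝ) ^ (1 / 5 : ℝ) * (N : ℝ) ^ (4 / 5 : ℝ) := by gcongr
                _ = N := h9.symm
        _ = N / (4 * L ^ A) := by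
            field_simp
            norm_num
    · have hXq : X ≤ r.den := by
        by_contra hcon
        apply hX1
        omega
      refine (norm_psi_le X (fun n => ee (n * β)) (fun n => (ee_norm _).le)).trans ?_
      have h6 : (X : ℝ) ≤ Y := le_trans (by exact_mod_cast hXq) hqY
      have h7 : Y ≤ N / (24 * L ^ A) := by
        rw [hYdef]
        gcongr
        calc 24 * L ^ A ≤ L * L ^ A := by gcongr
          _ = L ^ (A + 1) := by ring
          _ ≤ L ^ (2 * A + 11) := pow_le_pow_right₀ h1 (by omega)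
      calc 6 * (X : ℝ) ≤ 6 * (N / (24 * L ^ A)) := by linarith
        _ = N / (4 * L ^ A) := by
            field_simp
            norm_num

/-- wt:3, given va:4 -/
theorem fw_minor_of (C : ℝ) (hC : 0 < C) (hV : VM C) (A m c : ℕ) (hm : 0 < m) :
    ∃ N₀ : ℕ, ∀ N : ℕ, N₀ ≤ N →
    ∀ α : ℝ, (¬ ∃ (a : ℤ) (q : ℕ), 0 < q ∧ (q : ℝ) ≤ Real.log N ^ (2 * A + 12) ∧
      IsCoprime a (q : ℤ) ∧ |α + a / q| ≤ Real.log N ^ (2 * A + 12) / N) → ∀ u : ℕ, u ≤ N →
    ‖∑ x ∈ Ioc 0 u, (fw m c x : ℂ) * ee (x * α)‖ ≤ N / Real.log N ^ A := by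
  set K := ∑ n ∈ Ioc 0 c, Real.log n with hK
  obtain ⟨N₀, hN₀⟩ := Filter.eventually_atTop.1
    ((ev_log 24).and <| (ev_log m).and <| (ev_log (512 * C * m)).and <|
      (ev_pow 1 (2 * A + 11) 1 one_pos).and <| (ev_pow (256 * C * m) (A + 4) (1 / 5) (by norm_num)).and
        <| (ev_pow (32 * m) (A + 1) (1 / 2) (by norm_num)).and <| ev_pow (4 * K) A 1 one_pos)
  refine ⟨max N₀ (max 1 (max c (2 * m))), fun N hN α hα u hu => ?_⟩
  obtain ⟨e1, e2, e3, e4, e5, e6, e7⟩ := hN₀ N ((le_max_left _ _).trans hN)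
  have hN1 : 0 < N := (le_max_left 1 _).trans ((le_max_right _ _).trans hN)
  have hN2 : c ≤ N := (le_max_left c _).trans ((le_max_right 1 _).trans
    ((le_max_right _ _).trans hN))
  have hN3 : 2 * m ≤ N := (le_max_right c _).trans ((le_max_right 1 _).trans
    ((le_max_right _ _).trans hN))
  rw [one_mul, Real.rpow_one] at e4
  rw [Real.rpow_one] at e7
  set L := Real.log N with hL
  have h1 : 1 ≤ L := by linarith
  have hL0 : 0 < L := by linarith
  have hNr : (0 : ℝ) < N := by exact_mod_cast hN1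
  have hmr : (0 : ℝ) < m := by exact_mod_cast hm
  refine (fw_transform m c u hm α).trans ?_
  set X := m * u + c with hX
  have hX2 : X ≤ 2 * m * N := by
    have h6 : m * u ≤ m * N := Nat.mul_le_mul_left m hu
    have h7 : c ≤ m * N := hN2.trans (Nat.le_mul_of_pos_left N hm)
    calc X ≤ m * N + m * N := by omega
      _ = 2 * m * N := by ring
  have hX2r : (X : ℝ) ≤ 2 * m * N := by exact_mod_cast hX2
  have hsq : 2 * √(X : ℝ) * Real.log X ≤ N / (4 * L ^ A) := by
    rcases Nat.eq_zero_or_pos X with h0 | h0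
    · rw [h0]
      simp only [Nat.cast_zero, Real.sqrt_zero, Real.log_zero, mul_zero]
      positivity
    have hX0r : (1 : ℝ) ≤ X := by exact_mod_cast h0
    have a4 : Real.log X ≤ 2 * L := by
      have : Real.log X ≤ Real.log ((N : ℝ) ^ 2) := by
        apply Real.log_le_log (by positivity)
        have : (2 * m : ℝ) ≤ N := by exact_mod_cast hN3
        nlinarith
      rw [Real.log_pow] at this
      push_cast at this
      exact this
    have a5 : 0 ≤ Real.log X := Real.log_nonneg hX0r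
    have a8 : √(X : ℝ) ≤ 2 * m * √(N : ℝ) := by
      apply Real.sqrt_le_iff.2
      refine ⟨by positivity, ?_⟩
      have h9 : (1 : ℝ) ≤ m := by exact_mod_cast hm
      calc (X : ℝ) ≤ 2 * m * N := hX2r
        _ ≤ (2 * m) ^ 2 * N := by nlinarith [mul_pos hmr hNr]
        _ = (2 * m * √(N : ℝ)) ^ 2 := by
            rw [mul_pow (2 * (m : ℝ)), Real.sq_sqrt hNr.le]
    rw [le_div_iff₀ (by positivity)]
    rw [← Real.sqrt_eq_rpow] at e6
    calc 2 * √(X : ℝ) * Real.log X * (4 * L ^ A)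
        ≤ 2 * (2 * m * √(N : ℝ)) * (2 * L) * (4 * L ^ A) := by gcongr
      _ = (32 * m * L ^ (A + 1)) * √(N : ℝ) := by ring
      _ ≤ √(N : ℝ) * √(N : ℝ) := by gcongr
      _ = N := Real.mul_self_sqrt hNr.le
  have hKb : K ≤ N / (4 * L ^ A) := by
    rw [le_div_iff₀ (by positivity)]
    linarith
  have hj : ∀ j ∈ range m, ‖∑ n ∈ Ioc c X with n.Prime,
        (Real.log n : ℂ) * ee (n * ((α + j) / m))‖ ≤ 3 * (N / (4 * L ^ A)) := by
    intro j _
    have b1 := inner_bound c X (by omega) ((α + j) / m)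
    have b2 := vino C hC hV A m c N hm hN1 h1 e1 e2 e3 hN2 hN3 e4 e5 α hα u hu j
    linarith
  calc (1 / m : ℝ) * ∑ j ∈ range m, ‖∑ n ∈ Ioc c X with n.Prime,
        (Real.log n : ℂ) * ee (n * ((α + j) / m))‖
      ≤ (1 / m) * ∑ j ∈ range m, 3 * (N / (4 * L ^ A)) := by
        gcongr with j hj'
        exact hj j hj'
    _ = 3 * (N / (4 * L ^ A)) := by
        rw [Finset.sum_const, Finset.card_range, nsmul_eq_mul]
        field_simp
    _ ≤ N / L ^ A := by
        have : (N : ℝ) / (4 * L ^ A) = N / L ^ A / 4 := by field_simp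
        rw [this]
        have : 0 ≤ (N : ℝ) / L ^ A := by positivity
        linarith

end h61

end Pool.Agent.helper74.TG
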