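import Pool.Agent.helper61.TG.WT6

/-!
# GNU project, analytic part: common lemmas for wt:2 and wt:3
-/

namespace Pool.Agent.helper74.TG

open Finset ArithmeticFunction

namespace h61

theorem ev_log (K : ℝ) : ∀ᶠ N : ℕ in Filter.atTop, K ≤ Real.log N :=
  (Real.tendsto_log_atTop.comp tendsto_natCast_atTop_atTop).eventually_ge_atTop K

theorem ev_pow (K : ℝ) (k : ℕ) (e : ℝ) (he : 0 < e) :
    ∀ᶠ N : ℕ in Filter.atTop, K * Real.log N ^ k ≤ (N : ℝ) ^ e := by
  have h1 := (isLittleO_log_rpow_rpow_atTop (k : ℝ) he).def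
    (c := 1 / (|K| + 1)) (by positivity)
  have h2 := tendsto_natCast_atTop_atTop (R := ℝ) |>.eventually h1
  filter_upwards [h2, ev_log 0] with N hN h0
  rw [Real.rpow_natCast, Real.norm_of_nonneg (by positivity),
    Real.norm_of_nonneg (by positivity)] at hN
  have h3 : (0 : ℝ) < |K| + 1 := by positivity
  rw [div_mul_eq_mul_div, one_mul, le_div_iff₀ h3] at hN
  have h4 : K ≤ |K| := le_abs_self K
  have h5 : 0 ≤ Real.log N ^ k := by positivity
  nlinarith

/-- prime sums against von Mangoldt sums -/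
theorem prime_sum_sub (X : ℕ) (s : ℕ → Prop) [DecidablePred s] (w : ℕ → ℂ)
    (hw : ∀ n, ‖w n‖ ≤ 1) :
    ‖∑ n ∈ Ioc 0 X with s n, (vonMangoldt n : ℂ) * w n -
      ∑ n ∈ Ioc 0 X with (s n ∧ n.Prime), (Real.log n : ℂ) * w n‖ ≤
      2 * √(X : ℝ) * Real.log X := by
  rcases Nat.eq_zero_or_pos X with h0 | hX
  · subst h0
    simp
  have hX1 : (1 : ℝ) ≤ X := by exact_mod_cast hX
  have h1 := Chebyshev.psi_sub_theta_le hX1
  rw [Chebyshev.psi_sub_theta_eq_sum_not_prime, Nat.floor_natCast] at h1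
  refine le_trans ?_ h1
  have h2 : ∑ n ∈ Ioc 0 X with s n, (vonMangoldt n : ℂ) * w n -
      ∑ n ∈ Ioc 0 X with (s n ∧ n.Prime), (Real.log n : ℂ) * w n =
      ∑ n ∈ Ioc 0 X with ¬ n.Prime, if s n then (vonMangoldt n : ℂ) * w n else 0 := by
    simp only [Finset.sum_filter]
    rw [← Finset.sum_sub_distrib]
    refine Finset.sum_congr rfl fun n _ => ?_
    by_cases hs : s n <;> by_cases hp : n.Prime
    · simp [hs, hp, vonMangoldt_apply_prime hp]
    · simp [hs, hp]
    · simp [hs]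
    · simp [hs]
  rw [h2]
  refine (norm_sum_le _ _).trans (Finset.sum_le_sum fun n _ => ?_)
  split_ifs
  · rw [norm_mul, Complex.norm_real, Real.norm_of_nonneg vonMangoldt_nonneg]
    have := hw n
    have h3 : 0 ≤ vonMangoldt n := vonMangoldt_nonneg
    nlinarith [norm_nonneg (w n)]
  · rw [norm_zero]
    exact vonMangoldt_nonneg

theorem psi_nat (X : ℕ) : ∑ n ∈ Ioc 0 X, vonMangoldt n = Chebyshev.psi X := by
  rw [Chebyshev.psi, Nat.floor_natCast]

theorem norm_psi_le (X : ℕ) (w : ℕ → ℂ) (hw : ∀ n, ‖w n‖ ≤ 1) :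
    ‖∑ n ∈ Ioc 0 X, (vonMangoldt n : ℂ) * w n‖ ≤ 6 * X := by
  have h1 := Chebyshev.psi_le_const_mul_self (x := (X : ℝ)) (by positivity)
  have h4 : Real.log 4 ≤ 2 := by
    have : Real.log 4 = 2 * Real.log 2 := by
      rw [show (4 : ℝ) = 2 ^ 2 by norm_num, Real.log_pow]
      norm_num
    have := Real.log_two_lt_d9
    linarith
  have h2 : ‖∑ n ∈ Ioc 0 X, (vonMangoldt n : ℂ) * w n‖ ≤ Chebyshev.psi X := by
    rw [← psi_nat]
    refine (norm_sum_le _ _).trans (Finset.sum_le_sum fun n _ => ?_)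
    rw [norm_mul, Complex.norm_real, Real.norm_of_nonneg vonMangoldt_nonneg]
    have := hw n
    have h3 : 0 ≤ vonMangoldt n := vonMangoldt_nonneg
    nlinarith [norm_nonneg (w n)]
  refine h2.trans (h1.trans ?_)
  have : (0 : ℝ) ≤ X := by positivity
  nlinarith

/-- the affine substitution `n = m x + c` -/
theorem affine_sum {R : Type*} [AddCommMonoid R] (m c u : ℕ) (hm : 0 < m) (g : ℕ → R) :
    ∑ x ∈ Ioc 0 u, g (m * x + c) =
      ∑ n ∈ Ioc c (m * u + c) with n ≡ c [MOD m], g n := by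
  refine Finset.sum_bij (fun x _ => m * x + c) ?_ ?_ ?_ ?_
  · intro x hx
    simp only [Finset.mem_Ioc, Finset.mem_filter] at hx ⊢
    refine ⟨⟨?_, ?_⟩, ?_⟩
    · have := Nat.mul_pos hm hx.1
      omega
    · have := Nat.mul_le_mul_left m hx.2
      omega
    · simp [Nat.ModEq]
  · intro x hx y hy h
    have : m * x = m * y := by omega
    exact Nat.eq_of_mul_eq_mul_left hm this
  · intro n hn
    simp only [Finset.mem_Ioc, Finset.mem_filter] at hn
    obtain ⟨⟨h1, h2⟩, h3⟩ := hn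
    have h4 : m ∣ n - c := (Nat.modEq_iff_dvd' h1.le).1 h3.symm
    obtain ⟨k, hk⟩ := h4
    refine ⟨k, ?_, by omega⟩
    simp only [Finset.mem_Ioc]
    constructor
    · rcases Nat.eq_zero_or_pos k with h0 | h0
      · subst h0
        simp at hk
        omega
      · exact h0
    · have : m * k ≤ m * u := by omega
      exact Nat.le_of_mul_le_mul_left this hm
  · intro x _
    rfl

end h61

end Pool.Agent.helper74.TG
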